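import Pool.Agent.J4H47.MT.Law

/-!
# The Mumford-Tate conjecture: the Hodge classes are all or a negligible part of the Tate classes

Let `k` be the algebraic closure, in `ℂ`, of a finitely generated field, and `𝒱` a class of smooth
projective varieties over `k`, closed under products, on which Hodge classes are Tate classes (this
is a theorem of Deligne for the class of all abelian varieties). `W₀` is the Betti cohomology with
rational coefficients and `W` the `ℓ`-adic cohomology. For `X` in `𝒱` let `t n`, `h n`, `r n` be the
dimension of the space of all Tate classes, the dimension of the space of all Hodge classes, and the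
rank of the group of all algebraic cycles modulo numerical equivalence, for the product of `n + 1`
copies of `X` (all codimensions).

*Theorem.* (1) Either the Mumford-Tate conjecture holds for `X` (`MumfordTateFor`: on all powers of
`X` all Tate classes are linear combinations, with coefficients in `ℚ_ℓ`, of Hodge classes), or the
quotient `t n / h n` tends to infinity: the Hodge classes are a negligible part of the Tate classes.
(2) So if there is a constant `ε > 0` with `ε t n ≤ h n` for infinitely many `n`, then the
Mumford-Tate conjecture holds for `X`. (3) It also holds if the Tate classes on all powers of `X` are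
generated over the Hodge classes by finitely many Tate classes (`GeneratedOver`: they are linear
combinations of Hodge classes and of images of these under correspondences given by Hodge classes).
(4) The quotient `h n / r n` has a limit `P` in `{1, 2, …, ∞}`, and `P = 1` if and only if the Hodge
conjecture holds for all powers of `X`. The limit of `t n / r n` is `P`, too, if the Mumford-Tate
conjecture holds for `X`, and `∞` otherwise. So if a positive proportion of the Tate classes is
algebraic (for infinitely many `n`) then the Mumford-Tate conjecture holds for `X`, and the index of
the algebraic classes in the Tate classes is the index `P` of the Hodge conjecture.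

Nothing is assumed on the semisimplicity of the Galois representations. If the representation `H(X)`
of the Galois group is semisimple (Faltings, for abelian varieties), `MumfordTateFor` is equivalent to
the equality of the Mumford-Tate group (over `ℚ_ℓ`) and of the identity component of the `ℓ`-adic
monodromy group of the motive of `X`, as both groups are reductive.

*Proof.* By the tower law of the library (helpers Y133) the quotient `t n / h n` has a limit `N` in
`{1, 2, …, ∞}`, as the Hodge classes are nondegenerate for the intersection product; it is `1` only if
all Tate classes are combinations of Hodge classes; and if `N` is finite, then the Tate classes are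
generated over the Hodge classes by finitely many classes `c₁, …, c_r` on powers of `X`. Let `c` be a
Tate class on a power `Y` of `X`, and `y` a complex class of type `s ≠ 0` (of type `(p, q)` with
`p - q = s`) on `Y`. The pairing `α` of `c` and `y` is an element of `ℂ ⊗_ℚ ℚ_ℓ`, and the pairing of the
exterior powers of `c` and `y` with exponent `a = 2 ^ m` is `α ^ a`. The exterior power of `c` is a
combination of Hodge classes and of images of the `c_i` under Hodge correspondences, and these have
no components of large type; as the exterior power of `y` is of type `a s`, we get `α ^ a = 0` for
large `a`. The ring `ℂ ⊗_ℚ ℚ_ℓ` is reduced, so `α = 0` for all `y`, and this means that `c` is a linear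
combination of Hodge classes. (If both groups are reductive the reason for (1) is that the
Mumford-Tate group is connected.)
-/

open CategoryTheory AlgebraicGeometry Filter
open Pool.Agent.H914 VarClass Obj WeilCohomology
open Pool.Agent.J4H47.MT
open Pool.Agent.Y133.Half (dimBy cycRank pw HasIndex GeneratedOver)

universe u v

namespace Pool.Agent.Results.MP_de8692_ag.AllOrNegligible

/-- **The Mumford-Tate conjecture holds for `X`, or the Hodge classes are a negligible part of the
Tate classes on the powers of `X`.** -/
theorem result {k : Type u} [Field k] {𝒱 : VarClass k} {ops : CycleOps 𝒱}
    {W₀ W : WeilCohomology.{u, v} ops} [Algebra W₀.K ℝ] [Algebra W₀.K W.K]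
    (Ψ : HodgeTypes W₀) (C : Comparison W₀ W) (M : GaloisAction.{u, v} W)
    (hodge_tate : ∀ (X : 𝒱.Obj) (j : ℕ) (x : W₀.H X), IsHodge Ψ X j x → IsTate M X j (C.c X x))
    (X : 𝒱.Obj) [Nontrivial (W.H X)] (t h r : ℕ → ℕ)
    (ht : ∀ n, t n = dimBy W (IsTate M) (pw X n))
    (hh : ∀ n, h n = dimBy W₀ (IsHodge Ψ) (pw X n))
    (hr : ∀ n, r n = cycRank ops (pw X n)) :
    (MumfordTateFor Ψ C M X ∨ HasIndex t h ⊤) ∧
    (∀ ε : ℝ, 0 < ε → (∃ᶠ n in atTop, ε * t n ≤ h n) → MumfordTateFor Ψ C M X) ∧
    (∀ N, GeneratedOver W (HodgeSpan Ψ C) (IsTate M) X N → MumfordTateFor Ψ C M X) ∧
    ∃ P : ℕ∞, 1 ≤ P ∧ (P = 1 ↔ HodgeFor Ψ X) ∧ HasIndex h r P ∧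
      (MumfordTateFor Ψ C M X → HasIndex t r P) ∧
      (¬ MumfordTateFor Ψ C M X → HasIndex t r ⊤) := by
  obtain rfl := funext ht
  obtain rfl := funext hh
  obtain rfl := funext hr
  exact law Ψ C M hodge_tate X

end Pool.Agent.Results.MP_de8692_ag.AllOrNegligible
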