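import Mathlib
import Pool.Agent.J4H9.NMTFam

/-!
# The Mumford-Tate conjecture for the liftings of almost all abelian varieties over a finite field

Let `q = p ^ a` be a power of a prime number and `ν` a symmetric Newton polygon whose first `g`
slopes are `lam 0 ≤ lam 1 ≤ ⋯ ≤ lam (g - 1)`, `0 ≤ lam i ≤ 1 / 2`. The set `newtonAbove p a lam g`
consists of the Weil polynomials of degree `2 g` over the field with `q` elements whose Newton
polygon is not below `ν` (the closed stratum), and the set `newtonThrough p a lam g E` of those
members whose Newton polygon meets `ν` over all points of a finite set `E` of integers from one to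
`g` (if `E` contains the vertices of `ν`, the set of all Weil polynomials with the Newton polygon
`ν`). Assume that the height of `ν` over `g` is at most `(1 / 2 - μ) g`. Let `S` be a subset of
`newtonAbove p a lam g` with at least `1 / D` times as many elements as `newtonThrough p a lam g E`.

We show that, with at most `m ^ 2 D 2 ^ #E 8 ^ g q ^ (- (μ / 4 - ε) g)` times the number of all tuples
as exceptions, the tuples `(f 1, …, f m)` of elements of `S` have the following property
`MumfordTateForLifts`: the Mumford-Tate conjecture is true for every abelian variety `A` of dimension
`m g` over a finitely generated field of characteristic zero such that `f 1 ⋯ f m` is the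
characteristic polynomial of the Frobenius element at one place of good reduction of `A` with residue
field of `q` elements. Nothing is assumed about the endomorphisms of `A` or the image of the Galois
group, and `A` may have any polarization.

The bound is uniform in `q`, in the Newton polygon and in the dimension. So if `q > 2 ^ (12 / μ)` is
fixed and `g` tends to infinity, then the proportion of the exceptional tuples in the stratum tends
to zero exponentially: the Mumford-Tate conjecture is true for all liftings to characteristic zero of
almost all isogeny classes in the stratum. The case of the slopes `lam i = 0` is the case of all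
abelian varieties over the field with `q` elements.

The Mumford-Tate conjecture for `A` is formulated as in the starting file
`MP_de8692_ag/SignatureFrobeniusMumfordTate` (`MumfordTateStrong`): every Tate class in the tensor
powers `(H^1)^{⊗ 2 m}(m)` is a linear combination of Hodge classes, and even of products of Hodge
classes of degree two. Together with the theorem of Deligne (Hodge classes are Tate classes) this is
the equality of the Mumford-Tate group (over `ℚ_ℓ`) and of the connected component of the `ℓ`-adic
monodromy group: both are reductive (Faltings), so that they are determined by their invariants in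
these spaces. So the equality holds for all motives in the tannakian category generated by
`H^1(A)`. `IsRealization` contains the data of an abelian variety with the theorems of Faltings.

The counting part is that of `MP_021685_ag/NewtonStrata`: a cover of the set of the Weil polynomials
of the stratum by few sets in which every coefficient runs through a long arithmetic progression if
the higher ones are given, a lower bound for their number up to a factor `8 ^ g`, and the large
sieve. It shows that the conjugates of the Weil numbers have no multiplicative relations except for
those of the complex conjugate pairs.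
-/

set_option autoImplicit false

namespace Pool.Agent.Results.MP_de8692_ag.AlmostAllReductions

open Polynomial Pool.Agent.J4H9.NGauss Pool.Agent.J4H9.NStm Pool.Agent.J4H9.NMT

theorem result (μ ε : ℝ) (hμ : 0 < μ) (hμ1 : μ ≤ 1 / 2) (hε : 0 < ε) (hε1 : ε < μ / 4) :
    ∃ g₀ : ℕ, ∀ g : ℕ, g₀ ≤ g → ∀ p a : ℕ, p.Prime → 0 < a → ∀ lam : ℕ → ℝ, Slopes lam →
      ∑ i ∈ Finset.range g, lam i ≤ (1 / 2 - μ) * g →
      ∀ E : Finset ℕ, (∀ j ∈ E, 0 < j ∧ j ≤ g ∧
        ∃ n : ℕ, (a : ℝ) * ∑ i ∈ Finset.range j, lam i = n) →
      ((newtonAbove p a lam g).Finite ∧
        (64 ≤ ((p ^ a : ℕ) : ℝ) ^ (μ / 2) → 0 < (newtonThrough p a lam g E).ncard)) ∧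
      ∀ (S : Set ℤ[X]) (D : ℝ), S ⊆ newtonAbove p a lam g → 1 ≤ D →
        ((newtonThrough p a lam g E).ncard : ℝ) ≤ D * S.ncard → ∀ m : ℕ,
        ({f : Fin m → ℤ[X] | (∀ i, f i ∈ S) ∧ ¬ MumfordTateForLifts (p ^ a) f}.ncard : ℝ) ≤
          (m : ℝ) ^ 2 * D * 2 ^ E.card * 8 ^ g *
            ((p ^ a : ℕ) : ℝ) ^ (-((μ / 4 - ε) * g)) * (S.ncard : ℝ) ^ m :=
  mt_main hμ hμ1 hε hε1

end Pool.Agent.Results.MP_de8692_ag.AlmostAllReductions
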