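import Pool.Agent.J4H44.MF.G2

/-!
# The Mumford-Tate conjecture for projective hyperkähler varieties

Let `X j`, `j ∈ J`, be finitely many projective hyperkähler varieties over a finitely generated field
`k` of characteristic zero, of any dimensions and of any deformation types, and let `M` be the sum of
the motives `H^i (X j)`, for all `i` and `j`. We prove the Mumford-Tate conjecture (Q1) for `M`, and so
for all motives in the tannakian category generated by the motives of projective hyperkähler
varieties over `k`. The inputs are the known case of the sum of the `H² (X j)` (André; Commelin for the
sum), the action of `so(H²)` on the cohomology (Verbitsky, Looijenga-Lunts) and standard facts. There is
no condition on the deformation types (nothing is deformed to a known example), on the second Betti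
numbers or on the odd cohomology. The result has three parts:

* the identity component of the `ℓ`-adic monodromy group of `M` is the Mumford-Tate group;
* in all tensor constructions Tate classes are the same as `ℚ_ℓ`-linear combinations of Hodge classes
  (for general deformation types neither of the two inclusions was known: Hodge classes on
  hyperkähler varieties are not known to be absolute Hodge classes);
* the Galois representations `H^i (X j)` are semisimple.

Idea of the proof. Let `𝔪` be the Lie algebra of the special Mumford-Tate group of the sum of the
`H² (X j)`. By Verbitsky and Looijenga-Lunts it acts on the cohomology, and it contains the Hodge
operator of the full cohomology: so Hodge classes are the rational classes killed by `𝔪`.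

(1) Let `s` be a closed point of the base of a spreading of the `X j` whose residue field has a prime
number of elements. The slope operator of the crystalline cohomology of the fibre of `X j` on `H^i` is
`i / 2 + ρ_i (S_2 - 1) + T_i` where `T_i` commutes with `so(H²)`. As `so(H²)` is perfect, weak
admissibility shows that `T_i` is nilpotent, and so zero, as it is the difference of two commuting
semisimple operators. This is a statement on the Frobenius eigenvalues, and so it is true in the
`ℓ`-adic cohomology for all embeddings of the algebraic numbers. Hence the Frobenius eigenvalues on
the classes of weight `2 r` killed by `𝔪` are `p ^ r` times roots of unity of bounded order; here the
Frobenius tori of `H²` are in the Mumford-Tate group.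

(2) Let `σ` be any element of the Galois group. A polynomial argument with determinants (and
Chebotarev's theorem) shows that for each homomorphism `w` from the multiplicative group of `Ω` to
`ℚ` the weight operator of `σ` on `H^i`, for `w`, is given by the one of `H²` in the same way as in
(1), up to a nilpotent part which commutes with the commutant of `so(H²)`. The homomorphisms
`w` given by the `ℓ`-adic logarithm and a basis of `Ω` over `ℚ` show: if the logarithm of `σ` on
`H²` is `N A` with a semisimple element `A` of `𝔪` then the logarithm of `σ` on `H^i` is `N ρ_i (A)`. By the
Mumford-Tate conjecture for `H²` there are such `σ` in each open subgroup. So `𝔪` kills the Tate
classes, and Tate classes are combinations of Hodge classes.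

(3) By (1) the Galois group acts on the Hodge classes of weight `2 r`, twisted by `r`, through a
quasi-unipotent representation, of bounded order (Chebotarev). The places above `ℓ`: inertia
acts through a finite group by Sen's theorem, as the Hodge-Tate operator is in `𝔪`. The other places: by
Grothendieck's relation `Φ τ Φ⁻¹ = τ ^ q` the eigenvalues and the additive characters `f` of an open
subgroup satisfy `f τ = q f τ`. The geometric fundamental group acts in a semisimple way, so
through a finite group. By Kolchin's theorem an open subgroup acts unipotently, and its action is
described by additive characters, which are unramified everywhere, and therefore trivial. So Hodge
classes are Tate classes.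

(4) A Galois stable subspace of a tensor construction is stable under `𝔪` by (2), so there is a
projector to it which commutes with `𝔪`. It is a combination of Hodge classes, so it is fixed by an open
subgroup by (3), and by averaging we find a Galois equivariant projector. Finally, each polynomial
function on the general linear groups is a matrix coefficient of a sum of tensor constructions, and
the theorem on the bicommutant shows the equality of the two groups.
-/

set_option autoImplicit false

namespace Pool.Agent.Results.MP_de8692_ag.HyperkaehlerVarieties

open Pool.Agent.J4H44.MF

/-- **The Mumford-Tate conjecture for projective hyperkähler varieties.** Let `M` be the sum of the
motives of finitely many projective hyperkähler varieties over a finitely generated field of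
characteristic zero, with its `ℓ`-adic and its Betti cohomology. The known facts are: the
Mumford-Tate conjecture for `H²` (`L`), facts on the action of the Galois group (`N`), and that the
Mumford-Tate group is reductive (`R`). Then the Mumford-Tate conjecture holds for `M`: the
identity component of the `ℓ`-adic monodromy group is the Mumford-Tate group; the Tate classes in the
tensor constructions are the combinations of the Hodge classes; the Galois representations are
semisimple. -/
theorem result {Ω : Type} [Field Ω] [CharZero Ω] [IsAlgClosed Ω] [TopologicalSpace Ω]
    [IsTopologicalRing Ω] [T2Space Ω] (M : HKMotive Ω) (L : M.MumfordTateTwo) (N : M.Arithmetic)
    (R : M.Reductive) : M.MumfordTate :=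
  HKMotive.mumfordTate L N R

end Pool.Agent.Results.MP_de8692_ag.HyperkaehlerVarieties
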